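import Pool.Agent.H856.JN.Gen3

/-!
# The case `i = 2 ν` for the hypersurfaces `F(x) + G(y) = 0` and for towers of hypersurfaces

For `i = 2 ν` the generalized Tate conjecture over a finite field is the Tate conjecture: the classes of
codimension `ν` on which a power of the Frobenius acts as on `ℚ_ℓ(-ν)` are algebraic.

Let `k` be a finite field with `q` elements, `ℓ` a prime number different from the characteristic
and `d = ℓ ^ a`. For a smooth form `F` of degree `d` in `N = 2 c + 2` variables let `Y_F` be the
hypersurface `F = 0`, of dimension `2 c`. The eigenvalues of Frobenius on the primitive part of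
`H ^ (2 c) (Y_F)` form a multiset `α` of algebraic integers, and the number of points of `Y_F` over the
extension of degree `s` of `k`, with `Q = q ^ s` elements, is `1 + Q + ... + Q ^ (2 c) + ∑ a ^ s`. Hence
the number of zeros of `F` in `N` variables is `Q ^ (N - 1) + (Q - 1) ∑ a ^ s`; this is the definition
`IsSpectrum F α`, and it determines the multiplicities of the nonzero elements of `α`. The multiplicity
of `q ^ c` in `α` is the rank predicted by the Tate conjecture for the primitive classes of codimension
`c` on `Y_F` (all other classes on `Y_F` are multiples of powers of the hyperplane class).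

**Two forms.** Let `X` be the hypersurface `F(x) + G(y) = 0`, of dimension `2 e`, where
`e = c + c' + 1` and `Y_G` has the dimension `2 c'`. Let `φ` be the reduction of the algebraic integers
modulo a prime ideal above `ℓ`. For *any* spectra `α, β, γ` of `F, G, F(x) + G(y)` we prove the formula

  `γ_(j+1) + ε (A + B) = (αβ)_j + ε (1 + C)`, with `ε = (ℓ ^ a - 1) / ord_ℓ(q)`,

where `γ_j` is the number of the eigenvalues in `γ` which are `q ^ j` modulo `ℓ`, and `A`, `B`, `C` are
the numbers of the eigenvalues in `α`, `β` and of the products in `αβ` which are powers of `q` modulo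
`ℓ`. So if `A + B = 1 + C` (for instance if `B = 1` and no product of an eigenvalue in `α` with one of
the other eigenvalues in `β` is a power of `q` modulo `ℓ`), then the number of the eigenvalues `q ^ e` of
`X` is at most the number `(αβ)_(e-1)` of products; and it is equal to the number of the products that
are equal to `q ^ (e - 1)`, because `q αβ` is a part of `γ`: the part which is invariant under the group
`μ_d` (which acts on the coordinates `y`). Hence all Tate classes on `X` in the middle codimension
come from `Y_F × Y_G`: the Tate conjecture in the codimension `e` for `X` is equivalent to the Tate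
conjecture for the primitive classes of the codimension `c + c'` in `H ^ (2c) (Y_F) ⊗ H ^ (2c') (Y_G)`.
If `B = 1`, and if the class in `H ^ (2 c') (Y_G)` that belongs to the eigenvalue `q ^ c'` is algebraic,
then it is equivalent to the Tate conjecture in the codimension `c` for `Y_F`, and all Tate classes on
`X` are combinations of the power of the hyperplane class and of the joins
`{[x : y] : x ∈ Z, y ∈ W}` of cycles `Z` on `Y_F` and `W` on `Y_G`. There is no assumption of
semisimplicity. Nothing like this is true for the other degrees: the proof uses that `μ_d` is a group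
of `ℓ`-power order.

**Towers.** Let `G = f(y, z)` be a binary form which is the product of two different irreducible
factors of degrees `r` and `s`; so `r + s = ℓ ^ a`. Then `Y_G` consists of two closed points of degrees
`r` and `s`, and `β` consists of `1` and of the other roots of unity of the orders `r` and `s`
(`binSpectrum`). The second part of the theorem is about the hypersurfaces

  `X_n : F(x) + f_0(y_0, z_0) + ... + f_(n-1)(y_(n-1), z_(n-1)) = 0`

of dimension `2 (c + n)` with such binary forms: if the numbers `m_i = r_i s_i` are prime to `ℓ`, to the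
order of `q` modulo `ℓ`, to each other and to a number `M` such that all `x ^ M`, `x ∈ α`, are powers
of `q` modulo `ℓ`, then for any spectra of the `X_i` the number of the eigenvalues of `X_n` which are
`q ^ (c + n)` modulo `ℓ` is the number of the eigenvalues of `Y_F` which are `q ^ c` modulo `ℓ`, and the
multiplicity of `q ^ (c + n)` for `X_n` is the one of `q ^ c` for `Y_F`.
Hence the Tate conjecture for `X_n`, in all codimensions, follows from the Tate conjecture for `Y_F`.
For example `F` may be a binary form (with any number of factors; then all Tate classes on `X_n` come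
from linear subspaces of `X_n`), or a quartic form in four variables: `Y_F` is a `K3` surface, for
which the Tate conjecture is known, and we get quartic fourfolds.

The proof. For sets with an operator `σ` all of whose points are periodic (the points over the algebraic
closure of `k` with the Frobenius) the zeta functions of a torsor `T → U` under a finite group of order
`ℓ ^ a`, on which Frobenius is the multiplication by `q`, satisfy modulo `ℓ`
`Z_T(t) = ∏ Z_U(q ^ i t)`, `0 ≤ i < ℓ ^ a` (`Pool.Agent.H856.JN.comparison`). Here `T` is the part of `X`
where `F` and `G` are not zero, a torsor under `μ_d` over the product `U` of the complements of `Y_F` and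
`Y_G`. The zeta function of the base is known exactly, and one counts the zeros and poles at the powers
of `q`.
-/

set_option autoImplicit false

open MvPolynomial

namespace Pool.Agent.Results.MP_8abef2_ag.JoinsOfForms

open Pool.Agent.H856.JN

open Classical in
/-- the multiplicity of `x` in the multiset `α` -/
noncomputable def mult {A : Type} (x : A) (α : Multiset A) : ℕ := α.count x

/-- the number `(ℓ ^ a - 1) / ord_ℓ(q)`, where `q` is the number of elements of `k` -/
noncomputable def twists (ℓ a : ℕ) (k : Type) : ℕ :=
  (ℓ ^ a - 1) / orderOf (Nat.card k : ZMod ℓ)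

/-- **Two forms.** The numbers of the eigenvalues of `F(x) + G(y)` which are powers of `q` modulo
`ℓ`, and the multiplicities of the powers of `q` if the correction is zero. -/
def TwoForms (ℓ a : ℕ) (k : Type) [Field k] [Finite k] {A Ω : Type} [CommRing A] [Field Ω]
    (φ : A →+* Ω) : Prop :=
  ∀ (ι ι' : Type) [Fintype ι] [Fintype ι'] [Nonempty ι] [Nonempty ι']
    (F : MvPolynomial ι k) (G : MvPolynomial ι' k) (α β γ : Multiset A),
    F.IsHomogeneous (ℓ ^ a) → G.IsHomogeneous (ℓ ^ a) →
    IsSpectrum F α → IsSpectrum G β → IsSpectrum (joinForm F G) γ →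
    (∀ j : ℕ, cntAt (Nat.card k) φ (j + 1) γ +
        twists ℓ a k * (cntPow (Nat.card k) φ α + cntPow (Nat.card k) φ β) =
      cntAt (Nat.card k) φ j (mprod α β) +
        twists ℓ a k * (1 + cntPow (Nat.card k) φ (mprod α β))) ∧
    (cntPow (Nat.card k) φ α + cntPow (Nat.card k) φ β =
        1 + cntPow (Nat.card k) φ (mprod α β) →
      joinPart (Nat.card k) α β ≤ γ →
      ∀ j : ℕ, mult ((Nat.card k : A) ^ (j + 1)) γ = mult ((Nat.card k : A) ^ j) (mprod α β))

/-- **Towers.** The number of the eigenvalues which are `q ^ (c + n)` modulo `ℓ`, and the multiplicity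
of `q ^ (c + n)`, for `F(x) + ∑ f_i(y_i, z_i)`, where `i < n` and `f_i` is the binary form with the
dehomogenization `g_i h_i`. -/
def Towers (ℓ a : ℕ) (k : Type) [Field k] [Finite k] {A Ω : Type} [CommRing A] [Field Ω]
    (φ : A →+* Ω) : Prop :=
  ∀ (ι : Type) [Fintype ι] [Nonempty ι] (F : MvPolynomial ι k) (M n : ℕ)
    (g h : ℕ → Polynomial k) (ζ ξ : ℕ → A) (γ : ℕ → Multiset A),
    F.IsHomogeneous (ℓ ^ a) →
    Admissible k ℓ a M g h n →
    (∀ i < n, IsPrimitiveRoot (ζ i) (g i).natDegree) →
    (∀ i < n, IsPrimitiveRoot (ξ i) (h i).natDegree) →
    (∀ i ≤ n, IsSpectrum (towerForm F (fun i => binForm (g i * h i)) i) (γ i)) →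
    (∀ x ∈ γ 0, φ x = 0 ∨ IsQPower (Nat.card k) φ (x ^ M)) →
    (∀ c : ℕ, cntAt (Nat.card k) φ (c + n) (γ n) = cntAt (Nat.card k) φ c (γ 0)) ∧
    ((∀ i < n, joinPart (Nat.card k) (γ i)
        (binSpectrum (g i).natDegree (h i).natDegree (ζ i) (ξ i)) ≤ γ (i + 1)) →
      ∀ c : ℕ, mult ((Nat.card k : A) ^ (c + n)) (γ n) = mult ((Nat.card k : A) ^ c) (γ 0))

/-- **The eigenvalues of the hypersurfaces `F(x) + G(y) = 0` and of the towers, for forms of degree
`ℓ ^ a`.** `φ` is the reduction of the algebraic integers modulo a prime above `ℓ`. -/
theorem result (ℓ a : ℕ) (hℓ : ℓ.Prime) (k : Type) [Field k] [Finite k] (hk : (ℓ : k) ≠ 0)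
    (A Ω : Type) [CommRing A] [IsDomain A] [CharZero A] [Field Ω] [CharP Ω ℓ] (φ : A →+* Ω) :
    TwoForms ℓ a k φ ∧ Towers ℓ a k φ := by
  constructor
  · intro ι ι' _ _ _ _ F G α β γ hF hG hα hβ hγ
    exact ⟨fun j => formula hℓ hk hF hG hα hβ hγ φ j,
      fun h hle j => formula_exact hℓ hk hF hG hα hβ hγ φ h hle j⟩
  · intro ι _ _ F M n g h ζ ξ γ hF hgh hζ hξ hs hM
    exact (tower_gen hℓ hk φ hF hM n hgh hζ hξ hs).2

end Pool.Agent.Results.MP_8abef2_ag.JoinsOfForms
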