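import Pool.Agent.H367.OS.GWx

/-!
# The generalized Tate conjecture for one degree and one coniveau, and one sequence of cubics

A relation `r` of size `m` is one of the equations `x_i x_j = x_l`, `x_i + x_j = x_l`, `x_i = 1` with
`i, j, l < m`; the relations are numbered, the number of `r` is `ν(r)` (`relNum`). Let `G_m` be the
following polynomial with integral coefficients (`univG ℤ m`). There are variables `x_i` and `z_ij` for
`i, j < m`, a variable `c_r` for every relation `r`, and variables `y_{r,l}` for all relations `r` and
`l < (m + 1) 2 ^ ν(r)`. The equations (`eqnG`) are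

  `z_ij - x_i x_j`,  `c_r ^ 2 - c_r`,  `c_r ρ_r`,  `(1 - c_r) y_{r,l}`,

where `ρ_r` is the linear polynomial `z_ij - x_l`, `x_i + x_j - x_l` or `x_i - 1` of the relation.
`G_m` is the sum of the equations multiplied by further variables `t_e`, one for each equation. It has
degree three. Let `C_m` be the affine cubic hypersurface `G_m = 1` (`cubG R m` over the ring `R`); it is
smooth over the integers.

Let `k` be a prime field (`ℚ` or `𝔽_p`) and `ℓ` a prime number different from the characteristic. The
geometric coniveau `N^ν H^i(M)` and the Galois coniveau `N^ν_ℓ H^i(M)` are additive functors of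
effective Chow motives `M` over `k` (for `ν ≤ 0` both are the whole space `H^i(M)`). For a separated
scheme `X` of finite type over `k` let `W(X)` be its weight complex (Gillet, Soulé; Bondarko), a
bounded complex of effective Chow motives, with `W(X) = h(X)` for smooth projective `X`. For `w ∈ ℤ`
and `ν, m ∈ ℤ` let

* `(C w).A (ν, m) X = H^m(N^ν H^{w+2ν}(W(X)))`;
* `(C w).B (ν, m) X = H^m(N^ν_ℓ H^{w+2ν}(W(X)))`,

and let `(C w).ρ` be the map given by the inclusion `N^ν ⊆ N^ν_ℓ`. For smooth projective `Y` the
groups for `m ≠ 0` are zero and the map for `m = 0` is the inclusion `N^ν H^i(Y) ⊆ N^ν_ℓ H^i(Y)`, `i =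
w + 2ν`. So `Equal (C w) ν Y` is the equality for `Y`, `ν` and `i = w + 2ν`; for other schemes it says
that the maps are isomorphisms for these `w`, `ν` and all `m`.

Let `Q1 i ν K X` be the statement of question Q1 for `X` over a finite extension `K` of `k` (a number
field or a finite field). For `K = k` it is `Equal (C (i - 2ν)) ν X`, and in general it follows from
the statement for `X`, regarded as a scheme over `k`: its cohomology is the induced representation
(hypothesis `Describes`).

**Theorem.** Let `E_m` be the number of the equations, and for `N ∈ ℕ` let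
`idx m ν N = ν + (m + 1) N + E_m - 1`.

(1) For all `i` and `ν`, the equality `N^ν H^i(X) = N^ν_ℓ H^i(X)` is true for all finite extensions
`K` of `k` and all smooth projective `X` over `K` if and only if `Equal (C (i - 2ν)) (idx m ν N) C_m`
for all `N` and infinitely many `m`: the maps from the geometric to the Galois coniveau `ν + e` in the
degree `i + 2 e`, `e = (m + 1) N + E_m - 1`, are isomorphisms for `W(C_m)`.

(2) The hypersurfaces `C_m` decide the statements (`Decides`), for each `w = i - 2 ν`: for every affine
scheme `Spec B` of finite type over `k` and all large `m` there is an `N` such that for `0 ≤ ν ≤ m` the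
statement with the index `ν` for `Spec B` is equivalent to the one with the index `idx m ν N` for `C_m`;
and for every separated scheme `X` of finite type and all large `m`, the statements for `C_m` imply the
statements for `X`.

(3) Unconditionally, `Equal (C w) (idx m ν N) C_m` is true for `w < 0` and `ν ≤ m`, or `ν = 0`, and
all `N`.

(4) `G_m` has integral coefficients and degree at most three, and `C_m` is smooth over all rings.

The hypotheses are standard: localisation sequences, affine bundles and products with `𝔾_m`
(`IsWeightPair`); the weight complex of a scheme of dimension at most `d` consists of direct factors of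
motives of smooth projective varieties of dimension at most `d`, so that the groups vanish for the
indices `ν > d` (`PHigh`, `GenAt`); for `ν ≤ 0` both sides are everything (`small`).

Idea of the proof. The projection of `C_m` to the affine space with the coordinates `x, z, c, y` is an
affine bundle over the complement of the zero set `W_m` of the equations. The scheme `W_m` is the
disjoint union, over all sets `s` of relations (`c_r = 1` for `r ∈ s` and `c_r = 0` for the others), of
the products `X_s × 𝔸 ^ ((m + 1) N(s))`, where `X_s` is the affine scheme defined by the relations in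
`s` and `N(s) = ∑_{r ∈ s} 2 ^ ν(r)`. The numbers `N(s)` are different, and the dimension of `X_s` is at
most `m`. So the invariant of `W_m` with the index `q + (m + 1) N(s)`, `0 ≤ q ≤ m`, is the invariant of
`X_s` with the index `q`; the other components do not contribute. Every affine scheme of finite type
over a prime field is an `X_s`, for all large `m`.

The universal system of relations is the one of helper854 (`Pool.Agent.H854.SQ`).
-/

set_option autoImplicit false

open CategoryTheory CategoryTheory.Limits AlgebraicGeometry Pool.Agent.Y116.UV Pool.Agent.Z125.UN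
  Pool.Agent.Q193.LT Pool.Agent.Q49.WU Pool.Agent.H854.SQ Pool.Agent.H367.OS

universe w



namespace Pool.Agent.Results.MP_8abef2_ag.OneSequenceOverTheIntegers

/-- The maps of coniveau `ν` are isomorphisms. -/
def Equal {k : Type} [Field k] {ℓ : ℕ} [Fact ℓ.Prime] (C : PairData.{w} k (ℤ × ℤ) ℚ_[ℓ]) (ν : ℤ)
    (X : Sch k) : Prop :=
  BijAt C Prod.fst ν X

/-- The reduction from finite extensions `K` of the prime field `k` to `k`. -/
structure Describes {k : Type} [Field k] {ℓ : ℕ} [Fact ℓ.Prime]
    (C : ℤ → PairData.{w} k (ℤ × ℤ) ℚ_[ℓ])
    (Q1 : ℕ → ℕ → ∀ (K : Type) [Field K] [Algebra k K], Sch K → Prop) : Prop where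
  rational : ∀ (i ν : ℕ) (Y : Sch k), SmoothProj Y → (Q1 i ν k Y ↔ Equal (C (i - 2 * ν)) ν Y)
  restrict : ∀ (i ν : ℕ) (K : Type) [Field K] [Algebra k K] [FiniteDimensional k K] (X : Sch K),
    SmoothProj X → ∃ Y : Sch k, SmoothProj Y ∧ (Equal (C (i - 2 * ν)) ν Y → Q1 i ν K X)

/-- **The generalized Tate conjecture for one degree and one coniveau, and one sequence of cubic
hypersurfaces over the integers.** See the explanations above. `small` are the trivial cases: both
sides are everything for `ν ≤ 0` and zero for `i < 2ν`. -/
theorem result {k : Type} [Field k] (hk : IsPrimeField k) {ℓ : ℕ} [Fact ℓ.Prime]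
    (_hℓ : (ℓ : k) ≠ 0) {C : ℤ → PairData.{w} k (ℤ × ℤ) ℚ_[ℓ]} (weight : ∀ w, IsWeightPair (C w))
    (vanish : ∀ w, PHigh (C w) Prod.fst) (generated : ∀ w, GenAt (C w) Prod.fst)
    (point : ∀ w, BijAll (C w) (aff k k))
    (small : ∀ (w ν : ℤ), ν ≤ 0 ∨ w < 0 → ∀ Y : Sch k, SmoothProj Y → Equal (C w) ν Y)
    {Q1 : ℕ → ℕ → ∀ (K : Type) [Field K] [Algebra k K], Sch K → Prop} (h : Describes C Q1) :
    (∀ i ν : ℕ, (∀ (K : Type) [Field K] [Algebra k K] [FiniteDimensional k K] (X : Sch K),
        SmoothProj X → Q1 i ν K X) ↔
      ∃ᶠ m in Filter.atTop, ∀ N : ℕ, Equal (C (i - 2 * ν)) (idx m ν N) (cubG k m)) ∧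
    (∀ w : ℤ, Decides (Equal (C w))) ∧
    (∀ (w : ℤ) (ν : ℕ), ν = 0 ∨ w < 0 → ∀ m, ν ≤ m → ∀ N : ℕ,
      Equal (C w) (idx m ν N) (cubG k m)) ∧
    ∀ m : ℕ, (univG ℤ m).totalDegree ≤ 3 ∧
      ∀ (R : Type) [CommRing R], MvPolynomial.map (Int.castRingHom R) (univG ℤ m) = univG R m ∧
        Smooth (cubG R m).hom := by
  have hd : ∀ w, Decides (Equal (C w)) := fun w =>
    decides_pair' hk (generated w) (weight w) graded_weight (vanish w) (point w)
      fun q hq => small w q (Or.inl hq.le)
  refine ⟨fun i ν => Iff.trans ⟨fun g Y hY => ?_, ?_⟩ (((hd (i - 2 * ν)).index ν).out 1 0), hd,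
    fun w ν hν m hm N => ?_, cubG_facts⟩
  · exact (h.rational i ν Y hY).mp (g k Y hY)
  · intro g K _ _ _ X hX
    obtain ⟨Y, hY, h1⟩ := h.restrict i ν K X hX
    exact h1 (g Y hY)
  · exact known_indices (graduated_pair' (weight w) graded_weight (vanish w) (point w) (generated w)
      fun q hq => small w q (Or.inl hq.le)) (generated w ν) (small w ν (by omega)) hm N

end Pool.Agent.Results.MP_8abef2_ag.OneSequenceOverTheIntegers
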