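import Pool.Agent.H833.CV.OrdZ

/-!
# The generalised Tate conjecture in coniveau one for products of ordinary elliptic K3 surfaces over
# finite fields

Let `S` be an ordinary K3 surface over the finite field with `q` elements (a power of `p`), with a
fibration in curves of genus one over an algebraic closure (for example with geometric Picard number
at least five), which lifts to characteristic zero together with this fibration (for `p > 2` all
line bundles lift to the canonical lift of `S`, by a theorem of Nygaard).

**Theorem.** For all `m` and all `i` the generalised Tate conjecture in coniveau one is true for
`H^i(S ^ m)`: every subspace `V` which is stable under Frobenius, and such that the eigenvalues of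
Frobenius on `V` are divisible by `q` as algebraic integers, restricts to zero on a dense open subset of
`S ^ m`. So `N^1 H^i = N^1_ℓ H^i` for all powers of `S`. For `S × S` all cases of the
generalised Tate conjecture follow.

More generally let `X` be the product of powers of several such surfaces `S s` and of an arbitrary
variety `Z` such that the equality `N^1 = N^1_ℓ` holds for `H = H^j(Z)` (there is no condition if `Z` is a
point, by `Pool.Agent.H833.CV.tate1_point`, or a curve). Suppose that the Galois group of the field
generated by the eigenvalues of Frobenius on `H` acts transitively on the families of
eigenvalues of Frobenius on the transcendental parts `T (S s)`; this is automatic, and proved below,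
for one surface `S` if the eigenvalues on `H` are rational numbers, for instance if `Z` is a point. Then
the equality holds for `X`. (Decoupling theorems for independent factors, in all coniveaus, are in the
library, `MP_8abef2_ag/IndependentProducts`; the powers of one surface are the new case.)

**The proof.** Let `K` be an algebraically closed field of characteristic zero with a valuation whose
residue field `κ` is an algebraic closure of the function field of `X`, and lift `S` to `K`. By
`MP_83b46e_ag.EllipticK3` (Voisin's conjecture for the lift) the zero-cycle `(x - o) × (y - o)` is
symmetric in the points `x`, `y` of the lift, up to rational equivalence, and therefore so is its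
reduction. So the products `cl x (a) cl y (b)` of the pull backs of classes at the generic point
are symmetric in `x` and `y`. Replacing `x` by its image under Frobenius we find
`(α i - α j) cl x (e i) cl y (e j) = 0` for eigenvectors `e i`, `e j` of Frobenius: the products of
different eigenvectors vanish at the generic point (`FClasses.mix`).

On the other hand the characteristic polynomial `P` of Frobenius on `T` is irreducible
(`OrdWeil.irreducible`), its roots are different, and at every place of the algebraic numbers above `p`
exactly one root is a unit. (If a root `α` has positive slopes at all places then `α / q` is an algebraic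
integer, since the surface is ordinary, and so `α / q` is a root of unity by Kronecker's theorem; but
`T` is the transcendental part.) So the eigenvalue `α i ^ k` of a pure power of an eigenvector is not
divisible by `q`, and the pure powers do not occur in `V`.
-/

set_option autoImplicit false

namespace Pool.Agent.Results.MP_8abef2_ag.OrdinaryK3OverFiniteFields

open Polynomial
open Pool.Agent.H833.EK Pool.Agent.H833.CV

/-- **The generalised Tate conjecture in coniveau one** for `H^*(S (τ 1) × ... × S (τ m)) ⊗ H`, where
the `S s` are ordinary elliptic K3 surfaces over the field of `q` elements and `H` is a cohomology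
group of an arbitrary variety `Z` for which the conjecture holds. A Frobenius stable subspace `V`, on
which the eigenvalues of Frobenius are divisible by `q`, vanishes at the generic point. -/
theorem result {K : Type} [Field K] [CharZero K] [IsAlgClosed K] {L : Type} [Field L] [CharZero L]
    [IsAlgClosed L] {p q r : ℕ} (hr : 0 < r) {n : Fin r → ℕ} (S : Fin r → Geo K)
    (hS : ∀ s, EllK3 (S s)) (P : Fin r → ℤ[X]) (α : ∀ s, Fin (n s) → L)
    (hα : ∀ s, OrdWeil p q (P s) (α s)) {A : Type} [CommRing A] [Algebra L A]
    (c : ∀ s, FClasses (S s) (α s) A)
    {H : Type} [AddCommGroup H] [Module L H] [FiniteDimensional L H] (Φ : H →ₗ[L] H)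
    {M : Type} [AddCommGroup M] [Module L M] [Module A M] (ρ : H →ₗ[L] M) (hZ : Tate1 q Φ ρ)
    (hd : LinDisj α Φ) (a : Fin r → ℕ) (γ : ∀ s, Fin (a s) → L) (m : ℕ) (τ : Fin m → Fin r)
    (V : Submodule L ((∀ l, BasO (n (τ l)) (a (τ l))) → H)) (hV : ∀ t ∈ V, frobT α γ τ Φ t ∈ V)
    (hI : ∀ μ : L, ∀ t ∈ V, t ≠ 0 → frobT α γ τ Φ t = μ • t → IsIntegral ℤ (μ / q))
    (x : ∀ l, (S (τ l)).Pt K) :
    ∀ t ∈ V, ∑ I, (∏ l, (c (τ l)).clB (x l) (I l)) • ρ (t I) = 0 :=
  ord_z hr hS hα hd c hZ γ τ hV hI x

end Pool.Agent.Results.MP_8abef2_ag.OrdinaryK3OverFiniteFields
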