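import Pool.Agent.H833.CV.Gal

/-!
# The generalised Tate conjecture in coniveau one for the powers of elliptic K3 surfaces

Let `S` be a K3 surface over a number field `k` which has, over an algebraic closure of `k`, a
fibration in curves of genus one (for example a K3 surface of geometric Picard number at least five),
and let `T` be the transcendental part of `H²(S, ℚ_ℓ)`, of rank `r ≥ 3`. We suppose that

* the Zariski closure of the image of the Galois group of `k` in `GL(T)` contains `SO(T)` (by a theorem
  of Tankeev this is so if `End_HS(T) = ℚ`, for a complex embedding of `k`; so it is true for the general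
  member of each family), and that
* `S` has good ordinary reduction at one place `v` of `k` (by a theorem of Bogomolov and Zarhin this is
  true for all K3 surfaces over number fields, after a finite extension of `k`).

Then for all `m` every Galois stable subspace `V` of `T ^ (⊗ m) ⊂ H^(2 m)(S ^ m, ℚ_ℓ)` such that
`V(1)` is effective is contained in `N^1 H^(2 m)(S ^ m)`: it restricts to zero on a dense open subset
of `S ^ m`. It is enough to suppose that the eigenvalues of the Frobenius element at the one place `v`
on `V` are divisible by `q` (as algebraic integers). By the Künneth formula, and since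
the classes of divisors and of points vanish on dense open subsets, the equality
`N^1 H^i = N^1_ℓ H^i` follows for all `i` and all powers `S ^ m` (the images of `V` in the summands
`T ^ (⊗ J)` of `H^i(S ^ m)` are quotients of `V`).

The proof. Let `K` be an algebraic closure of the function field of `S ^ m` (or of any variety). By
`MP_83b46e_ag.EllipticK3` (Voisin's conjecture for the surface `S` over `K`) the zero-cycle
`(x - o) × (x' - o)` is symmetric in the points `x`, `x'` of `S` over `K`. So the product
`T ^ (⊗ m) → H^(2 m)` of the pull backs of classes under the `m` coordinates is symmetric at the generic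
point, and it is zero on the multiples of the class of the diagonal: it factors through the homogeneous
coordinate ring of the quadric of the isotropic vectors. On the other hand `V` is stable under `SO(T)`,
and it is zero at the isotropic eigenvector of the transpose of Frobenius with the unit eigenvalue
`β`, since otherwise `β ^ m` would be an eigenvalue on `V`. So `V` is zero on the quadric.

In the Lean statement `L` is an algebraic closure of `ℚ_ℓ`, and `T ⊗ L` has an orthogonal basis with
the diagonal entries `d i` of the intersection form; the geometry at the generic point is described by
`LClasses`.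
-/

set_option autoImplicit false

namespace Pool.Agent.Results.MP_8abef2_ag.PowersOfEllipticK3

open Pool.Agent.H833.EK Pool.Agent.H833.CV

/-- **The generalised Tate conjecture in coniveau one for the powers of an elliptic K3 surface** with
a big Galois group and an ordinary place. -/
theorem result {K : Type} [Field K] [CharZero K] [IsAlgClosed K] (S : Geo K) (hS : EllK3 S)
    {L : Type} [Field L] [CharZero L] [IsAlgClosed L] {r : ℕ} (hr : 3 ≤ r) (d : Fin r → L)
    (hd : ∀ i, d i ≠ 0) {A : Type} [CommRing A] [Algebra L A] (c : LClasses S d A) {Γ : Type}
    (R : Γ → Matrix (Fin r) (Fin r) L) (hR : BigImage d R) (φ : Γ) (q : ℕ)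
    (hF : OrdFrob d (R φ) q) (m : ℕ) (V : Submodule L ((Fin m → Fin r) → L))
    (hV : ∀ σ, ∀ s ∈ V, tpow (R σ) s ∈ V)
    (hI : ∀ α : L, ∀ s ∈ V, s ≠ 0 → tpow (R φ) s = α • s → IsIntegral ℤ (α / q))
    (x : Fin m → S.Pt K) : ∀ t ∈ V, ∑ I, t I • ∏ l, c.cl (x l) (I l) = 0 :=
  gal_main hS hr hd c hR hF hV hI x

end Pool.Agent.Results.MP_8abef2_ag.PowersOfEllipticK3
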